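import Pool.Agent.H.MP_43bafb_an.Defs

set_option linter.unusedSimpArgs false
set_option linter.unusedVariables false

namespace Pool.Agent.H.MP_43bafb_an
open Set

variable {E : Type*} [NormedAddCommGroup E] [NormedSpace ℝ E] {p : ℝ}

lemma Gen.posHom {g : StrongDual ℝ E → ℝ} (h : Gen g) : PosHom g := by
  induction h with
  | delta v => intro t ht y; simp
  | add _ _ h1 h2 => intro t ht y; simp only [h1 t ht, h2 t ht]; ring
  | smul c _ h1 => intro t ht y; simp only [h1 t ht]; ring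
  | sup _ _ h1 h2 => intro t ht y; simp only [h1 t ht, h2 t ht]; rw [mul_max_of_nonneg _ _ ht]
  | inf _ _ h1 h2 => intro t ht y; simp only [h1 t ht, h2 t ht]; rw [mul_min_of_nonneg _ _ ht]

lemma Gen.fin {g : StrongDual ℝ E → ℝ} (h : Gen g) :
    ∃ F : Finset E, ∀ y z : StrongDual ℝ E, (∀ v ∈ F, y v = z v) → g y = g z := by
  classical
  have two : ∀ {f g : StrongDual ℝ E → ℝ} (op : ℝ → ℝ → ℝ),
      (∃ F : Finset E, ∀ y z : StrongDual ℝ E, (∀ v ∈ F, y v = z v) → f y = f z) →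
      (∃ F : Finset E, ∀ y z : StrongDual ℝ E, (∀ v ∈ F, y v = z v) → g y = g z) →
      ∃ F : Finset E, ∀ y z : StrongDual ℝ E, (∀ v ∈ F, y v = z v) →
        op (f y) (g y) = op (f z) (g z) := by
    rintro f g op ⟨F, h1⟩ ⟨G, h2⟩
    refine ⟨F ∪ G, fun y z h => ?_⟩
    rw [h1 y z fun v hv => h v (Finset.mem_union_left _ hv),
      h2 y z fun v hv => h v (Finset.mem_union_right _ hv)]
  induction h with
  | delta v => exact ⟨{v}, fun y z h => h v (Finset.mem_singleton_self v)⟩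
  | add _ _ h1 h2 => exact two (· + ·) h1 h2
  | smul c _ h1 => obtain ⟨F, h1⟩ := h1; exact ⟨F, fun y z h => by simp only [h1 y z h]⟩
  | sup _ _ h1 h2 => exact two max h1 h2
  | inf _ _ h1 h2 => exact two min h1 h2

lemma NormLe.abs (hp : 1 ≤ p) {f : StrongDual ℝ E → ℝ} (hf : PosHom f) {c : ℝ}
    (h : NormLe p f c) (y : StrongDual ℝ E) : |f y| ≤ c * ‖y‖ := by
  have hp0 : 0 < p := by linarith
  have one : ∀ z : StrongDual ℝ E, ‖z‖ ≤ 1 → |f z| ≤ c := by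
    intro z hz
    have := h 1 (fun _ => z) fun v hv => by
      simp only [Fin.sum_univ_one]
      exact Real.rpow_le_one (abs_nonneg _) ((z.unit_le_opNorm v hv).trans hz) hp0.le
    simp only [Fin.sum_univ_one] at this
    rwa [one_div, Real.rpow_rpow_inv (abs_nonneg _) hp0.ne'] at this
  rcases eq_or_ne y 0 with rfl | hy
  · have := hf 0 le_rfl 0
    simp only [zero_smul, zero_mul] at this
    simp [this]
  · have hn : 0 < ‖y‖ := norm_pos_iff.2 hy
    have h1 := one (‖y‖⁻¹ • y) (by rw [norm_smul, norm_inv, norm_norm, inv_mul_cancel₀ hn.ne'])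
    rw [hf _ (inv_pos.2 hn).le, abs_mul, abs_of_pos (inv_pos.2 hn), inv_mul_le_iff₀ hn] at h1
    linarith

lemma pw_smul (hp : 1 ≤ p) {c : ℝ} (hc : 0 ≤ c) (a : ℝ) : |c ^ (1 / p) * a| ^ p = c * |a| ^ p := by
  have hp0 : 0 < p := by linarith
  rw [abs_mul, abs_of_nonneg (Real.rpow_nonneg hc _), Real.mul_rpow (Real.rpow_nonneg hc _)
    (abs_nonneg _), one_div, Real.rpow_inv_rpow hc hp0.ne']

lemma NormLe.sum (hp : 1 ≤ p) {f : StrongDual ℝ E → ℝ} (hf : PosHom f)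
    (h : NormLe p f 1) (m : ℕ) (x : Fin m → StrongDual ℝ E) (c : ℝ)
    (hx : ∀ v : E, ‖v‖ ≤ 1 → ∑ i, |x i v| ^ p ≤ c) : ∑ i, |f (x i)| ^ p ≤ c := by
  have hp0 : 0 < p := by linarith
  have hc0 : 0 ≤ c := le_trans (by positivity) (hx 0 (by simp))
  refine le_of_forall_pos_le_add fun ε hε => ?_
  have hc : 0 < c + ε := by linarith
  have hi : 0 ≤ (c + ε)⁻¹ := (inv_pos.2 hc).le
  have := h m (fun i => ((c + ε)⁻¹) ^ (1 / p) • x i) fun v hv => by
    simp only [smul_apply, smul_eq_mul, pw_smul hp hi]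
    rw [← Finset.mul_sum, inv_mul_le_iff₀ hc]
    linarith [hx v hv]
  simp only [hf _ (Real.rpow_nonneg hi _), pw_smul hp hi] at this
  rw [← Finset.mul_sum] at this
  have h2 : (c + ε)⁻¹ * ∑ i, |f (x i)| ^ p ≤ 1 := by
    by_contra hc'
    push Not at hc'
    have := Real.one_lt_rpow hc' (show 0 < 1 / p by positivity)
    linarith
  rw [inv_mul_le_iff₀ hc] at h2
  linarith

variable (E) in
def Bd : Submodule ℝ ({v : E // ‖v‖ ≤ 1} → ℝ) where
  carrier := {φ | ∃ C, ∀ v, |φ v| ≤ C}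
  add_mem' := by
    rintro φ ψ ⟨C, h1⟩ ⟨D, h2⟩
    exact ⟨C + D, fun v => (abs_add_le _ _).trans (add_le_add (h1 v) (h2 v))⟩
  zero_mem' := ⟨0, by simp⟩
  smul_mem' := by
    rintro c φ ⟨C, h⟩
    exact ⟨|c| * C, fun v => by
      rw [Pi.smul_apply, smul_eq_mul, abs_mul]; exact mul_le_mul_of_nonneg_left (h v) (abs_nonneg _)⟩

lemma pietsch (hp : 1 ≤ p) {f : StrongDual ℝ E → ℝ} (hf : PosHom f) (h : NormLe p f 1) :
    ∃ Λ : Bd E →ₗ[ℝ] ℝ, (∀ (φ : Bd E) (C : ℝ), (∀ v, φ.1 v ≤ C) → Λ φ ≤ C) ∧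
      ∀ (φ : Bd E) (y : StrongDual ℝ E), (∀ v, |y v.1| ^ p ≤ φ.1 v) → |f y| ^ p ≤ Λ φ := by
  let S : Bd E → Set ℝ := fun φ => {r | ∃ (m : ℕ) (x : Fin m → StrongDual ℝ E),
    ∀ v, φ.1 v + ∑ i, |x i v.1| ^ p ≤ r + ∑ i, |f (x i)| ^ p}
  have S1 : ∀ (φ : Bd E) (C : ℝ), (∀ v, φ.1 v ≤ C) → C ∈ S φ := fun φ C h =>
    ⟨0, 0, fun v => by simpa using h v⟩
  have Sne : ∀ φ, (S φ).Nonempty := fun φ => by
    obtain ⟨C, hC⟩ := φ.2
    exact ⟨C, S1 φ C fun v => (le_abs_self _).trans (hC v)⟩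
  have Slow : ∀ (φ : Bd E) (C : ℝ), (∀ v, -C ≤ φ.1 v) → ∀ r ∈ S φ, -C ≤ r := by
    rintro φ C hC r ⟨m, x, hx⟩
    have := h.sum hp hf m x (r + C + ∑ i, |f (x i)| ^ p) fun v hv => by
      have a1 := hx ⟨v, hv⟩
      have a2 := hC ⟨v, hv⟩
      dsimp only at a1
      linarith
    linarith
  have Sbd : ∀ φ, BddBelow (S φ) := fun φ => by
    obtain ⟨C, hC⟩ := φ.2
    exact ⟨-C, Slow φ C fun v => (abs_le.1 (hC v)).1⟩
  have Ssm : ∀ c : ℝ, 0 < c → ∀ φ, ∀ r ∈ S φ, c * r ∈ S (c • φ) := by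
    rintro c hc φ r ⟨m, x, hx⟩
    refine ⟨m, fun i => c ^ (1 / p) • x i, fun v => ?_⟩
    simp only [smul_apply, smul_eq_mul, pw_smul hp hc.le,
      hf _ (Real.rpow_nonneg hc.le _), Submodule.coe_smul, Pi.smul_apply]
    rw [← Finset.mul_sum, ← Finset.mul_sum, ← mul_add, ← mul_add]
    exact mul_le_mul_of_nonneg_left (hx v) hc.le
  have Nle : ∀ c : ℝ, 0 < c → ∀ φ, sInf (S (c • φ)) ≤ c * sInf (S φ) := by
    intro c hc φ
    rw [← div_le_iff₀' hc]
    refine le_csInf (Sne φ) fun r hr => ?_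
    rw [div_le_iff₀' hc]
    exact csInf_le (Sbd _) (Ssm c hc φ r hr)
  have k1 : ∀ c : ℝ, 0 < c → ∀ φ, sInf (S (c • φ)) = c * sInf (S φ) := fun c hc φ => by
    refine le_antisymm (Nle c hc φ) ?_
    have := Nle c⁻¹ (inv_pos.2 hc) (c • φ)
    rw [smul_smul, inv_mul_cancel₀ hc.ne', one_smul, ← div_eq_inv_mul, le_div_iff₀' hc] at this
    exact this
  have k2 : ∀ φ ψ, sInf (S (φ + ψ)) ≤ sInf (S φ) + sInf (S ψ) := fun φ ψ => by
    refine le_of_forall_pos_le_add fun ε hε => ?_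
    obtain ⟨r, ⟨m, x, hx⟩, h1⟩ := exists_lt_of_csInf_lt (Sne φ)
      (show sInf (S φ) < sInf (S φ) + ε / 2 by linarith)
    obtain ⟨r', ⟨m', x', hx'⟩, h2⟩ := exists_lt_of_csInf_lt (Sne ψ)
      (show sInf (S ψ) < sInf (S ψ) + ε / 2 by linarith)
    have : sInf (S (φ + ψ)) ≤ r + r' := csInf_le (Sbd _) ⟨m + m', Fin.append x x', fun v => by
      rw [Fin.sum_univ_add, Fin.sum_univ_add]
      simp only [Fin.append_left, Fin.append_right, Submodule.coe_add, Pi.add_apply]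
      linarith [hx v, hx' v]⟩
    linarith
  have k3 : ∀ φ : (⟨⊥, 0⟩ : Bd E →ₗ.[ℝ] ℝ).domain,
      (⟨⊥, 0⟩ : Bd E →ₗ.[ℝ] ℝ) φ ≤ sInf (S φ.1) := by
    rintro ⟨φ, hφ⟩
    obtain rfl : φ = 0 := (Submodule.mem_bot ℝ).1 hφ
    show (0 : ℝ) ≤ sInf (S 0)
    exact le_csInf (Sne 0) fun r hr => by simpa using Slow 0 0 (fun v => by simp) r hr
  obtain ⟨Λ, -, hΛ⟩ := exists_extension_of_le_sublinear
    (⟨⊥, 0⟩ : Bd E →ₗ.[ℝ] ℝ) (fun φ => sInf (S φ)) k1 k2 k3
  refine ⟨Λ, fun φ C h => (hΛ φ).trans (csInf_le (Sbd φ) (S1 φ C h)), fun φ y hy => ?_⟩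
  have : Λ (-φ) ≤ -|f y| ^ p := (hΛ _).trans (csInf_le (Sbd _) ⟨1, fun _ => y, fun v => by
    have := hy v
    simp only [Fin.sum_univ_one, Submodule.coe_neg, Pi.neg_apply]
    linarith⟩)
  rw [map_neg] at this
  linarith

lemma ptw (hp : 1 ≤ p) {κ : ℝ} (hκ : 0 < κ) : ∃ τ : ℝ, 0 < τ ∧ τ ≤ 1 ∧ ∃ K : ℝ,
    ∀ t a b : ℝ, |t| ≤ τ → |a| ≤ 1 → |b| ≤ 1 →
      |a + t * b| ^ p ≤ 1 + p * t * (a * b) + κ * τ + K * (1 - |a|) := by
  have hp0 : 0 < p := by linarith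
  have hd : HasDerivAt (fun u : ℝ => (1 + u) ^ p) p 0 := by
    have := ((hasDerivAt_id (0 : ℝ)).const_add 1).rpow_const (p := p) (Or.inl (by simp))
    simpa using this
  have hl := (hasDerivAt_iff_isLittleO_nhds_zero.1 hd).def (show 0 < κ / 2 by linarith)
  obtain ⟨δ, hδ, hl⟩ := Metric.eventually_nhds_iff.1 hl
  refine ⟨min (δ / 4) (1 / 4), by positivity, (min_le_right _ _).trans (by norm_num),
    (2 ^ p + p) / min (δ / 4) (1 / 4) + 2 * p, fun t a b ht ha hb => ?_⟩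
  set τ := min (δ / 4) (1 / 4) with hτ
  have hτ0 : 0 < τ := by positivity
  have hτ1 : τ ≤ δ / 4 := min_le_left _ _
  have hτ2 : τ ≤ 1 / 4 := min_le_right _ _
  have hq : 0 ≤ (2 ^ p + p) / τ := by positivity
  have hab : |t * (a * b)| ≤ τ := by
    rw [abs_mul, abs_mul]
    have : |a| * |b| ≤ 1 := mul_le_one₀ ha (abs_nonneg _) hb
    nlinarith [abs_nonneg t]
  by_cases hs : 1 - |a| ≤ τ
  · obtain ⟨s, hs1, hs2⟩ : ∃ s : ℝ, (s = 1 ∨ s = -1) ∧ a = s * |a| := by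
      rcases abs_cases a with k | k
      · exact ⟨1, Or.inl rfl, by rw [k.1]; ring⟩
      · exact ⟨-1, Or.inr rfl, by rw [k.1]; ring⟩
    have hsb : |t * (s * b)| ≤ τ := by
      rw [abs_mul, abs_mul]
      have : |s| = 1 := by rcases hs1 with k | k <;> simp [k]
      rw [this]; nlinarith [abs_nonneg t, abs_nonneg b]
    set u := t * (s * b) + (1 - |a|) with hu
    have hu1 : |u| ≤ 2 * τ := by
      rw [abs_le] at hsb ⊢; constructor <;> linarith [hsb.1, hsb.2]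
    have h1 : |a + t * b| ≤ 1 + u := by
      rw [abs_le] at hsb
      rcases hs1 with k | k <;> rw [k] at hs2 hu hsb <;> rw [abs_le] <;> constructor <;>
        linarith [hsb.1, hsb.2, abs_nonneg a]
    have h2 := hl (y := u) (by rw [Real.dist_eq, sub_zero]; linarith)
    simp only [zero_add, add_zero, Real.one_rpow, smul_eq_mul, Real.norm_eq_abs] at h2
    have h3 := (abs_le.1 h2).2
    have h4 := Real.rpow_le_rpow (abs_nonneg _) h1 hp0.le
    have h5 : t * (s * b) ≤ t * (a * b) + (1 - |a|) := by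
      have e : t * (s * b) - t * (a * b) = t * (s * b) * (1 - |a|) := by
        conv_lhs => rw [hs2]
        ring
      have := (abs_le.1 hsb).2
      nlinarith
    have h6 : 0 ≤ 1 - |a| := by linarith
    have h7 := mul_nonneg hq h6
    have h8 : u * p ≤ p * t * (a * b) + 2 * p * (1 - |a|) := by rw [hu]; nlinarith
    nlinarith
  · push Not at hs
    have h1 : |a + t * b| ≤ 2 := by
      refine (abs_add_le _ _).trans ?_
      rw [abs_mul]; nlinarith [abs_nonneg t, abs_nonneg b]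
    have h4 := Real.rpow_le_rpow (abs_nonneg _) h1 hp0.le
    have h5 : 2 ^ p + p ≤ (2 ^ p + p) / τ * (1 - |a|) := by
      rw [div_mul_eq_mul_div, le_div_iff₀ hτ0]
      have : (0 : ℝ) ≤ 2 ^ p + p := by positivity
      nlinarith
    have h6 := (abs_le.1 hab).1
    have h7 : -p ≤ p * t * (a * b) := by nlinarith
    have h8 : 0 ≤ 2 * p * (1 - |a|) := by nlinarith
    have h9 : 0 ≤ κ * τ := by positivity
    linarith

theorem attain [CompleteSpace E] (hp : 1 ≤ p) {f : StrongDual ℝ E → ℝ} (hf : f ∈ Ball p)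
    (x : StrongDual ℝ E) (hx : ‖x‖ = 1) (hfx : f x = 1) : ∃ v : E, ‖v‖ ≤ 1 ∧ x v = 1 := by
  have hp0 : 0 < p := by linarith
  obtain ⟨hf1, hf2, hf3⟩ := hf
  obtain ⟨Λ, L1, L2⟩ := pietsch hp hf1 hf3
  have hb : ∀ (y : StrongDual ℝ E) (v : {v : E // ‖v‖ ≤ 1}), |y v.1| ≤ ‖y‖ :=
    fun y v => y.unit_le_opNorm v.1 v.2
  have hxb : ∀ v : {v : E // ‖v‖ ≤ 1}, |x v.1| ≤ 1 := fun v => (hb x v).trans hx.le
  let one : Bd E := ⟨fun _ => 1, 1, by simp⟩
  let ab : Bd E := ⟨fun v => |x v.1|, 1, fun v => by simpa using hxb v⟩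
  have o1 : Λ one = 1 := by
    have a1 := L1 one 1 fun v => le_rfl
    have a2 := L1 (-one) (-1) fun v => le_rfl
    rw [map_neg] at a2; linarith
  have o2 : Λ ab = 1 := by
    have a1 := L1 ab 1 hxb
    have a2 := L2 ab x fun v => Real.rpow_le_self_of_le_one (abs_nonneg _) (hxb v) hp
    rw [hfx, abs_one, Real.one_rpow] at a2
    linarith
  let M : StrongDual ℝ E →ₗ[ℝ] Bd E :=
    { toFun := fun y => ⟨fun v => x v.1 * y v.1, ‖y‖, fun v => by
        rw [abs_mul]; nlinarith [hxb v, hb y v, abs_nonneg (x v.1), abs_nonneg (y v.1)]⟩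
      map_add' := fun y z => by ext v; simp [mul_add]
      map_smul' := fun c y => by ext v; simp; ring }
  have hM : ∀ y, |Λ (M y)| ≤ ‖y‖ := by
    intro y
    have k : ∀ v : {v : E // ‖v‖ ≤ 1}, |x v.1 * y v.1| ≤ ‖y‖ := fun v => by
      rw [abs_mul]; nlinarith [hxb v, hb y v, abs_nonneg (x v.1), abs_nonneg (y v.1)]
    have a1 := L1 (M y) ‖y‖ fun v => (abs_le.1 (k v)).2
    have a2 := L1 (-M y) ‖y‖ fun v => by
      have := (abs_le.1 (k v)).1
      show -(x v.1 * y v.1) ≤ ‖y‖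
      linarith
    rw [map_neg] at a2
    exact abs_le.2 ⟨by linarith, a1⟩
  let Φ : StrongDual ℝ (StrongDual ℝ E) := (Λ ∘ₗ M).mkContinuous 1 fun y => by
    simpa using hM y
  have Φ1 : ‖Φ‖ ≤ 1 := LinearMap.mkContinuous_norm_le _ zero_le_one _
  have Φ2 : Φ x = 1 := by
    have a1 := (abs_le.1 (hM x)).2
    have a2 := L1 ((2 : ℝ) • ab - M x) 1 fun v => by
      show 2 * |x v.1| - x v.1 * x v.1 ≤ 1
      nlinarith [sq_nonneg (|x v.1| - 1), abs_mul_abs_self (x v.1)]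
    rw [map_sub, map_smul, o2, smul_eq_mul] at a2
    show Λ (M x) = 1
    linarith
  have small : ∀ κ > 0, ∃ F : Finset E, ∀ y : StrongDual ℝ E, (∀ v ∈ F, y v = 0) → ‖y‖ ≤ 1 →
      Φ y ≤ 2 * κ := by
    intro κ hκ
    obtain ⟨τ, τ0, τ1, K, hK⟩ := ptw hp hκ
    obtain ⟨g, g1, g2⟩ := hf2 (min (1 / 3) (κ * τ / 3)) (by positivity)
    set ε := min (1 / 3) (κ * τ / 3) with hε
    have ε0 : 0 < ε := by positivity
    have ε1 : ε ≤ 1 / 3 := min_le_left _ _
    have ε2 : ε ≤ κ * τ / 3 := min_le_right _ _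
    obtain ⟨F, hF⟩ := g1.fin
    have hd : PosHom fun y => f y - g y := fun t ht y => by
      simp only [hf1 t ht, g1.posHom t ht]; ring
    refine ⟨F, fun y hy hy1 => ?_⟩
    let z : StrongDual ℝ E := x + (-τ) • y
    have z1 : ‖z‖ ≤ 2 := by
      refine (norm_add_le _ _).trans ?_
      rw [norm_smul, norm_neg, Real.norm_of_nonneg τ0.le, hx]
      nlinarith [norm_nonneg y]
    have z2 : g z = g x := hF z x fun v hv => by simp [z, hy v hv]
    have z3 : 1 - 3 * ε ≤ f z := by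
      have a1 := (abs_le.1 (g2.abs hp hd z)).1
      have a2 := (abs_le.1 (g2.abs hp hd x)).2
      rw [hx, hfx] at a2
      nlinarith
    have z4 : 1 - p * (3 * ε) ≤ |f z| ^ p := by
      have a1 := one_add_mul_self_le_rpow_one_add (s := -(3 * ε)) (by linarith) hp
      have a2 := Real.rpow_le_rpow (by linarith : 0 ≤ 1 + -(3 * ε))
        (show 1 + -(3 * ε) ≤ |f z| from le_trans (by linarith) (le_abs_self _)) hp0.le
      linarith
    have z5 := L2 ((1 + κ * τ + K) • one + (p * -τ) • M y - K • ab) z fun v => by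
      have := hK (-τ) (x v.1) (y v.1) (by rw [abs_neg, abs_of_pos τ0]) (hxb v)
        ((hb y v).trans hy1)
      show |x v.1 + -τ * y v.1| ^ p ≤ (1 + κ * τ + K) * 1 + (p * -τ) * (x v.1 * y v.1) - K * |x v.1|
      linarith
    rw [map_sub, map_add, map_smul, map_smul, map_smul, o1, o2] at z5
    simp only [smul_eq_mul] at z5
    have e : Φ y = Λ (M y) := rfl
    rw [e]
    by_contra hc
    push Not at hc
    have a1 : p * τ * (2 * κ) < p * τ * Λ (M y) := mul_lt_mul_of_pos_left hc (by positivity)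
    have a2 : p * (3 * ε) ≤ p * (κ * τ) := mul_le_mul_of_nonneg_left (by linarith) hp0.le
    have a3 : κ * τ ≤ p * (κ * τ) := le_mul_of_one_le_left (by positivity) hp
    nlinarith
  let J := NormedSpace.inclusionInDoubleDualLi ℝ (E := E)
  have hcl : Φ ∈ range J := by
    have hc : IsClosed (range J) := J.isometry.isUniformInducing.isComplete_range.isClosed
    rw [← hc.closure_eq]
    refine (Metric.mem_closure_iff (α := StrongDual ℝ (StrongDual ℝ E))).2 fun κ hκ => ?_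
    obtain ⟨F, hF⟩ := small (κ / 4) (by linarith)
    let W : Submodule ℝ (StrongDual ℝ E) := ⨅ v : F, LinearMap.ker (J v.1).toLinearMap
    have hW : ∀ y : W, ∀ v ∈ F, y.1 v = 0 := fun y v hv =>
      (Submodule.mem_iInf _).1 y.2 ⟨v, hv⟩
    obtain ⟨Ψ, Ψ1, Ψ2⟩ := exists_extension_norm_eq W (Φ.comp W.subtypeL)
    have Ψ3 : ‖Ψ‖ ≤ κ / 2 := by
      rw [Ψ2]
      refine ContinuousLinearMap.opNorm_le_of_unit_norm (by linarith) fun y hy => ?_
      have a1 := hF y.1 (hW y) hy.le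
      have a2 := hF (-y.1) (fun v hv => by simp [hW y v hv]) (by rw [norm_neg]; exact hy.le)
      rw [map_neg] at a2
      show |Φ y.1| ≤ κ / 2
      exact abs_le.2 ⟨by linarith, by linarith⟩
    have hm : (Φ - Ψ).toLinearMap ∈ Submodule.span ℝ (range fun v : F => (J v.1).toLinearMap) :=
      mem_span_of_iInf_ker_le_ker fun y hy => by
        show Φ y - Ψ y = 0
        rw [Ψ1 ⟨y, hy⟩]; simp
    obtain ⟨c, hc⟩ := (Submodule.mem_span_range_iff_exists_fun ℝ).1 hm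
    refine ⟨J (∑ v : F, c v • v.1), mem_range_self _, ?_⟩
    have e : J (∑ v : F, c v • v.1) = Φ - Ψ := by
      ext y
      have := LinearMap.congr_fun hc y
      show y (∑ v : F, c v • v.1) = Φ y - Ψ y
      rw [map_sum]
      rw [LinearMap.sum_apply] at this
      refine Eq.trans (Finset.sum_congr rfl fun v _ => ?_) this
      rw [map_smul]; rfl
    rw [e]
    have e2 : dist Φ (Φ - Ψ) = ‖Φ - (Φ - Ψ)‖ :=
      dist_eq_norm (E := StrongDual ℝ (StrongDual ℝ E)) _ _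
    have e3 : Φ - (Φ - Ψ) = Ψ := by ext y; simp
    rw [e3] at e2
    exact e2.trans_lt (by linarith)
  obtain ⟨v, hv⟩ := hcl
  refine ⟨v, by rw [← J.norm_map, hv]; exact Φ1, ?_⟩
  rw [← Φ2, ← hv]; rfl

lemma delta_mem (hp : 1 ≤ p) (v : E) (hv : ‖v‖ ≤ 1) : (fun y : StrongDual ℝ E => y v) ∈ Ball p := by
  have hp0 : 0 < p := by linarith
  refine ⟨(Gen.delta v).posHom, fun ε hε => ⟨_, Gen.delta v, fun m x _ => ?_⟩, fun m x hx => ?_⟩
  · simp [Real.zero_rpow hp0.ne', Real.zero_rpow (inv_pos.2 hp0).ne', hε.le]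
  · exact Real.rpow_le_one (by positivity) (hx v hv) (by positivity)

lemma hat_norm (hp : 1 ≤ p) (x : StrongDual ℝ E) :
    IsLUB ((fun f : StrongDual ℝ E → ℝ => |f x|) '' Ball p) ‖x‖ := by
  constructor
  · rintro _ ⟨f, hf, rfl⟩
    simpa using hf.2.2.abs hp hf.1 x
  · intro c hc
    have h0 : 0 ≤ c := le_trans (abs_nonneg _) (hc ⟨_, delta_mem hp 0 (by simp), rfl⟩)
    exact ContinuousLinearMap.opNorm_le_of_unit_norm h0 fun v hv =>
      hc ⟨_, delta_mem hp v hv.le, rfl⟩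

end Pool.Agent.H.MP_43bafb_an
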