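import Mathlib

namespace Pool.Agent.H.MP_43bafb_an

variable {E : Type*} [NormedAddCommGroup E] [NormedSpace ℝ E]

/-- the vector sublattice of functions on the dual generated by the evaluations -/
inductive Gen : (StrongDual ℝ E → ℝ) → Prop
  | delta (v : E) : Gen fun y => y v
  | add {f g} : Gen f → Gen g → Gen fun y => f y + g y
  | smul (c : ℝ) {f} : Gen f → Gen fun y => c * f y
  | sup {f g} : Gen f → Gen g → Gen fun y => max (f y) (g y)
  | inf {f g} : Gen f → Gen g → Gen fun y => min (f y) (g y)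

/-- positively homogeneous -/
def PosHom (f : StrongDual ℝ E → ℝ) : Prop := ∀ t : ℝ, 0 ≤ t → ∀ y, f (t • y) = t * f y

/-- the free `p`-convex lattice norm of `f` is at most `c` -/
def NormLe (p : ℝ) (f : StrongDual ℝ E → ℝ) (c : ℝ) : Prop :=
  ∀ (m : ℕ) (x : Fin m → StrongDual ℝ E), (∀ v : E, ‖v‖ ≤ 1 → ∑ i, |x i v| ^ p ≤ 1) →
    (∑ i, |f (x i)| ^ p) ^ (1 / p) ≤ c

/-- the closed unit ball of the free `p`-convex Banach lattice over `E` -/
def Ball (p : ℝ) : Set (StrongDual ℝ E → ℝ) :=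
  {f | PosHom f ∧ (∀ ε > 0, ∃ g, Gen g ∧ NormLe p (fun y => f y - g y) ε) ∧ NormLe p f 1}

end Pool.Agent.H.MP_43bafb_an
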